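import Pool.Agent.H31.EH.Targets
import Pool.Agent.H60.LVP.TR
import Pool.Agent.H31.EST.RIP

/-!
# Row STU of the board `ehf_modules` (MP_e21eee_nt): uniqueness and invariance of the stars
-/

set_option autoImplicit false

open Finset MeasureTheory

namespace Pool.Agent.H91.EHF

open Pool.Agent.H24.CL Pool.Agent.H24.LV Pool.Agent.H26.ES Pool.Agent.H31.EH
open Pool.Agent.H60.LVP (hKC)
open Pool.Agent.H31.EST (SDatP_mono)

theorem mem_H {k q r : ℕ} {a : X k} : a ∈ H k q r ↔ (q ^ r) • a = 0 := Iff.rfl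

theorem mem_H1 {k q : ℕ} {a : X k} : a ∈ H k q 1 ↔ q • a = 0 := by
  rw [mem_H, pow_one]

/-- the product of the primes is the product of one and of the others -/
theorem DS_split {S : Finset ℕ} {p : ℕ} (hp : p ∈ S) (hp0 : 0 < p) :
    DS S / p = DS (S.erase p) ∧ DS S = DS S / p * p := by
  have h1 : DS S = p * DS (S.erase p) := (Finset.mul_prod_erase S (fun x => x) hp).symm
  have h2 : DS S / p = DS (S.erase p) := by
    rw [h1]
    exact Nat.mul_div_cancel_left _ hp0
  refine ⟨h2, ?_⟩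
  rw [h2, mul_comm]
  exact h1

/-- divisibility by the product of the primes -/
theorem dvd_DS_of {S : Finset ℕ} (hS : ∀ p ∈ S, p.Prime) {g k : ℕ} (h1 : g ∣ DS S ^ k)
    (h2 : ∀ p ∈ S, g ∣ (DS S / p) ^ k * p) : g ∣ DS S := by
  rw [Nat.dvd_iff_prime_pow_dvd_dvd]
  intro r j hr hj
  rcases Nat.eq_zero_or_pos j with h0 | h0
  · rw [h0, pow_zero]
    exact one_dvd _
  have h3 : r ∣ DS S := by
    refine hr.dvd_of_dvd_pow (n := k) ?_
    exact (dvd_pow_self r h0.ne').trans (hj.trans h1)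
  have h4 : r ∈ S := by
    obtain ⟨p, hp, h5⟩ := (Prime.dvd_finsetProd_iff hr.prime _).1 (show r ∣ ∏ p ∈ S, p from h3)
    rw [(Nat.prime_dvd_prime_iff_eq hr (hS p hp)).1 h5]
    exact hp
  have h5 : (r ^ j).Coprime ((DS S / r) ^ k) := by
    refine Nat.Coprime.pow _ _ ?_
    rw [(DS_split h4 hr.pos).1]
    refine (Nat.Coprime.prod_left fun p hp => ?_).symm
    rw [Nat.coprime_primes (hS p (Finset.mem_of_mem_erase hp)) hr]
    exact Finset.ne_of_mem_erase hp
  have h6 : r ^ j ∣ r := h5.dvd_of_dvd_mul_left (hj.trans (h2 r h4))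
  exact h6.trans h3

/-- translation by an element killed by the product of the primes -/
theorem star_add (hCO : L_CO) {k : ℕ} {S : Finset ℕ} {V : Set (X k)} {Ge : ℕ → Set (X k)}
    {Gd : ℕ → ℕ → Set (X k)} {P m τ Ω : ℝ} (hD : SDatP k S V Ge Gd P m τ Ω) (x : ℕ) (b : X k)
    {h : X k} (hh : h ∈ H k (DS S) 1) (hb : StarP S V Gd b x) : StarP S V Gd (b + h) x := by
  refine ⟨?_, fun p hp => ?_⟩
  · rw [map_add, hCO.2.1 k (DS S) x h hh, add_zero]
    exact hb.1
  · rw [map_add]
    refine hD.inv p hp _ _ (hb.2 p hp) _ ?_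
    rw [mem_H1, ← map_nsmul]
    refine hCO.2.1 k (DS S / p) _ _ ?_
    rw [mem_H1, smul_smul, ← (DS_split hp (hD.pr p hp).1.pos).2]
    exact mem_H1.1 hh

/-- the density of the stars is invariant -/
theorem den_add (hCO : L_CO) {k : ℕ} {S : Finset ℕ} {V : Set (X k)} {Ge : ℕ → Set (X k)}
    {Gd : ℕ → ℕ → Set (X k)} {P m τ Ω : ℝ} (hD : SDatP k S V Ge Gd P m τ Ω) (b : X k)
    {h : X k} (hh : h ∈ H k (DS S) 1) : den S V Gd (b + h) = den S V Gd b := by
  classical
  unfold den
  congr 3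
  refine Finset.filter_congr fun x _ => ⟨fun h1 => ?_, fun h1 => star_add hCO hD x b hh h1⟩
  have h2 := star_add hCO hD x (b + h) (AddSubgroup.neg_mem _ hh) h1
  rwa [add_neg_cancel_right] at h2

theorem pf_STU (hCO : L_CO) : T_STU := by
  intro k S V Ge Gd P m τ Ω hD
  have hpr : ∀ p ∈ S, p.Prime := fun p hp => (hD.pr p hp).1
  have hpos : 0 < DS S := Finset.prod_pos fun p hp => (hpr p hp).pos
  refine ⟨?_, fun x b h hh hb => star_add hCO hD x b hh hb, fun b h hh => den_add hCO hD b hh, ?_⟩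
  · intro x hx b b' hb hb' he
    set d : X k := b - b' with hd
    have h1 : phi (DS S) x d = 0 := by
      rw [hd, map_sub, he, sub_self]
    have h2 : (DS S ^ k) • d = 0 := by
      have h3 : d ∈ H k (DS S) k := by
        apply (hKC k (DS S) x hpos).2
        rw [AddMonoidHom.mem_ker]
        exact h1
      exact mem_H.1 h3
    have h3 : ∀ p ∈ S, ((DS S / p) ^ k * p) • d = 0 := by
      intro p hp
      have hp0 := (hpr p hp).pos
      obtain ⟨e1, e2⟩ := DS_split hp hp0
      have hD' : 0 < DS S / p := by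
        rw [e1]
        exact Finset.prod_pos fun q hq => (hpr q (Finset.mem_of_mem_erase hq)).pos
      have hco : (DS S / p).Coprime p := by
        rw [e1]
        refine Nat.Coprime.prod_left fun q hq => ?_
        rw [Nat.coprime_primes (hpr q (Finset.mem_of_mem_erase hq)) (hpr p hp)]
        exact Finset.ne_of_mem_erase hq
      have ht : x / (DS S / p) < p := by
        rw [Nat.div_lt_iff_lt_mul hD', mul_comm]
        rw [← e2]
        exact hx
      have hcen : ∀ c : X k, phi p (x / (DS S / p)) (phi (DS S / p) (x % (DS S / p)) c) =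
          phi (DS S) x c := by
        intro c
        rw [hCO.1, Nat.mod_add_div, mul_comm p, ← e2]
      have h4 := hD.uni p hp _ ht _ (hb.2 p hp) _ (hb'.2 p hp) (by rw [hcen, hcen, he])
      rw [mem_H1, ← map_sub, ← map_nsmul] at h4
      have h5 := hCO.2.2.1 k (DS S / p) (x % (DS S / p)) (p ^ k) ((DS S / p) ^ k • (p • d))
        (Nat.Coprime.pow_right k hco) (by
          rw [smul_smul, ← mul_pow, mul_comm p, ← e2, smul_comm, h2, smul_zero])
        (by rw [map_nsmul, h4, smul_zero])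
      rw [smul_smul] at h5
      exact h5
    rw [mem_H1]
    refine addOrderOf_dvd_iff_nsmul_eq_zero.1 (dvd_DS_of hpr (k := k) ?_ ?_)
    · exact addOrderOf_dvd_iff_nsmul_eq_zero.2 h2
    · exact fun p hp => addOrderOf_dvd_iff_nsmul_eq_zero.2 (h3 p hp)
  · intro kap x b h hh hb
    refine ⟨star_add hCO hD x b hh hb.1, fun S' hS' => ?_⟩
    have h1 := hb.2 S' hS'
    have h2 : DS S / DS S' * DS S' = DS S :=
      Nat.div_mul_cancel (Finset.prod_dvd_prod_of_subset _ _ _ hS')
    rw [map_add, den_add hCO (SDatP_mono hD hS')]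
    · exact h1
    · rw [mem_H1, ← map_nsmul]
      refine hCO.2.1 k _ _ _ ?_
      rw [mem_H1, smul_smul, h2]
      exact mem_H1.1 hh

end Pool.Agent.H91.EHF
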